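import Pool.Agent.BR49.PairColl

/-!
# Local geodesics of the braid space with collisions of disjoint pairs only

`W n` is the complement of the hyperplanes `z i = z j` in `ℂ^n`, so that `Ram x₀` is the braid space
`B^n` for every `x₀ : W n`. The involution `π` describes disjoint pairs `{i, π i}`.
-/

namespace Pool.Agent.Results.MP_32461f_gt.PairCollisions

open Set Pool.Agent.BR49

/-- **Local geodesics with collisions of disjoint pairs only** are shortest paths of the braid
space, and the only ones between their end points. -/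
theorem result (n : ℕ) (x₀ : W n) (π : Fin n → Fin n) (hπ : ∀ i, π (π i) = i) (a b : ℝ)
    (γ : ℝ → Ram x₀)
    (hγ : ∀ t ∈ Icc a b, ∃ ε > 0, ∀ s ∈ Icc a b, ∀ s' ∈ Icc a b, |s - t| < ε → |s' - t| < ε →
      dist (γ s) (γ s') = |s - s'|)
    (hcol : ∀ t ∈ Icc a b, ∀ i j, i ≠ j → proj (γ t) i = proj (γ t) j → j = π i) :
    (∀ s ∈ Icc a b, ∀ t ∈ Icc a b, dist (γ s) (γ t) = |s - t|) ∧
      ∀ t ∈ Icc a b, ∀ N : Ram x₀, dist (γ a) N = t - a → dist N (γ b) = b - t → N = γ t :=
  pair_collisions hπ x₀ hγ hcol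

end Pool.Agent.Results.MP_32461f_gt.PairCollisions
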