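import Pool.Agent.BR49.Strata5

/-!
# Strata of the braid space are isometrically embedded

`ER R r` is the set of all `z` in `ℂ^n` with `z i = z j` if `r i j` and `z i ≠ z j` if `R i j` but
not `r i j`. For `R = ⊤` it is the open stratum of the braid arrangement defined by the partition
`r`; for `R = ⊤` and `r = ⊥` it is the complement `W^n` of the arrangement. `Ram x₀` is the metric
completion of the universal covering with the lifted Euclidean length metric; for `R = ⊤` and
`r' = ⊥`, the space `Ram x₀` is the braid space `B^n`.
-/

namespace Pool.Agent.Results.MP_32461f_gt.StrataIsometric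

open Pool.Agent.BR49

/-- **Strata are isometrically embedded.** Through every point `P₀` of the ramified universal
covering of the stratum `r'` lying over a point `y₀` of the deeper stratum `r` there passes an
isometric copy of the (intrinsically defined) ramified universal covering of the stratum `r`. -/
theorem result {n : ℕ} {R r r' : Setoid (Fin n)} (hr : r' ≤ r) (hR : r ≤ R)
    (x₀ : ER R r') (P₀ : Ram x₀) (y₀ : ER R r) (h : proj P₀ = y₀) :
    ∃ ι : Ram y₀ → Ram x₀, Isometry ι ∧
      ι ((⟨y₀, Path.Homotopic.Quotient.refl y₀⟩ : Cov (ER R r) y₀) : Ram y₀) = P₀ ∧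
      ∀ Q : Ram y₀, proj (ι Q) = proj Q :=
  exists_isometry hr hR x₀ P₀ y₀ h

end Pool.Agent.Results.MP_32461f_gt.StrataIsometric
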