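import Pool.Agent.BR49.Convex

/-!
# Symmetric convex sets have convex preimages in the braid space

`WR R` is the complement in `ℂ^n` of the hyperplanes `z i = z j` with `i ≠ j` and `R i j`. If `R`
holds for all pairs, `WR R` is the complement `W^n` of the braid arrangement and `Ram x₀` is the
braid space `B^n`.
-/

namespace Pool.Agent.Results.MP_32461f_gt.SymmetricRetract

open Pool.Agent.BR49

/-- **Symmetric convex sets.** The preimage of a closed convex symmetric set `K` in the ramified
universal covering is a retract by a map `ρ` which lifts the nearest point projection and satisfies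
the strong nonexpansiveness inequality of the nearest point projection of a Hilbert space; in
particular it is totally convex: every point between two of its points belongs to it. -/
theorem result {n : ℕ} (R : Fin n → Fin n → Prop) (x₀ : WR R) (K : Set (E n))
    (hne : K.Nonempty) (hcl : IsClosed K) (hconv : Convex ℝ K) (hK : SymmSet R K) :
    ∃ ρ : Ram x₀ → Ram x₀, (∀ P : Ram x₀, proj (ρ P) ∈ K) ∧
      (∀ P : Ram x₀, proj P ∈ K → ρ P = P) ∧
      (∀ P : Ram x₀, ∀ w ∈ K, ‖proj P - proj (ρ P)‖ ≤ ‖proj P - w‖) ∧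
      (∀ P : Ram x₀, dist P (ρ P) = ‖proj P - proj (ρ P)‖) ∧
      (∀ P Q : Ram x₀, dist (ρ P) (ρ Q) ^ 2 +
        ‖(proj P - proj (ρ P)) - (proj Q - proj (ρ Q))‖ ^ 2 ≤ dist P Q ^ 2) ∧
      (∀ P Q X : Ram x₀, proj P ∈ K → proj Q ∈ K → dist P X + dist X Q = dist P Q → proj X ∈ K) := by
  obtain ⟨ρ, h1, h2, h3, h4, h5⟩ := exists_retraction R x₀ K hne hcl hconv hK
  refine ⟨ρ, h1, h2, h3, h4, h5, fun P Q X hP hQ hX => ?_⟩
  have e1 := h5 P X
  have e2 := h5 X Q
  rw [h2 P hP] at e1
  rw [h2 Q hQ] at e2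
  rw [sub_self, zero_sub, norm_neg] at e1
  rw [sub_self, sub_zero] at e2
  have t := dist_triangle P (ρ X) Q
  set δ := ‖proj X - proj (ρ X)‖ with hδ
  have hδ0 : 0 ≤ δ := norm_nonneg _
  have hz : δ = 0 := by
    by_contra hne
    have hpos : 0 < δ := lt_of_le_of_ne hδ0 (Ne.symm hne)
    have s1 : dist P (ρ X) < dist P X := by
      refine lt_of_pow_lt_pow_left₀ 2 dist_nonneg ?_
      nlinarith
    have s2 : dist (ρ X) Q < dist X Q := by
      refine lt_of_pow_lt_pow_left₀ 2 dist_nonneg ?_
      nlinarith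
    linarith
  have h6 : proj X = proj (ρ X) := sub_eq_zero.1 (norm_eq_zero.1 hz)
  rw [h6]
  exact h1 X

end Pool.Agent.Results.MP_32461f_gt.SymmetricRetract
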