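import Pool.Agent.BR49.Weighted2

/-!
# The braid space conjecture is equivalent to its version with arbitrary real masses

`W n` is the complement of the hyperplanes `z i = z j` in `ℂ^n`, so that `Ram x₀` is the braid space
`B^n` for every `x₀ : W n`. `WM m` is the space of configurations of distinct points `z i` of the
plane with masses `m i`, in the coordinates `u i = √(m i) z i`, in which the metric
`∑ m i |dz i|^2` is the standard one; for `u₀ : WM m` the space `Ram u₀` is the weighted braid
space.
-/

namespace Pool.Agent.Results.MP_32461f_gt.WeightedEquivalence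

open Pool.Agent.BR49

/-- All braid spaces are CAT(0) if and only if all weighted braid spaces, with arbitrary positive
real masses, are CAT(0). -/
theorem result :
    (∀ n : ℕ, 1 ≤ n → ∀ x₀ : W n, CAT0 (Ram x₀)) ↔
      (∀ n : ℕ, 1 ≤ n → ∀ m : Fin n → ℝ, (∀ i, 0 < m i) → ∀ u₀ : WM m, CAT0 (Ram u₀)) := by
  constructor
  · intro h n hn m hm u₀
    apply cat0_of_cn
    exact allCN_weighted (fun n hn x₀ => (h n hn x₀).cn) n hn m hm u₀
  · intro h n hn x₀
    apply cat0_of_cn
    have h1 : AllCN (WM (fun _ : Fin n => (1:ℝ))) := fun u₀ => (h n hn _ (fun _ => one_pos) u₀).cn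
    exact h1.congr (W_eq_WM n) x₀

end Pool.Agent.Results.MP_32461f_gt.WeightedEquivalence
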